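import Mathlib
import Pool.Agent.Lib.MP_04276e_nt.Ins.Fin

/-!
# The divergence half of Gallagher's theorem for one linear form, on every vertical line

`k = m + 2`; the coordinates `α 0, .., α m` are fixed and arbitrary, only the last coordinate `t` is
random. The inequality of the problem is the case `ψ n = 1 / (n * (log n) ^ k)`.
-/

set_option autoImplicit false

namespace Pool.Agent.Results.MP_04276e_nt.FibreGallagher

/-- Let `k = m + 2`, let `ψ : ℕ → ℝ` be nonnegative and non-increasing on `n ≥ 2`, with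
`∑ ψ(n) (log n)^(k-1) = ∞`, and let `α ∈ ℝ^(k-1)`. Suppose that `ψ(n) ≥ n^(-C)` for all large `n`, for
some real `C` (and then `α` is arbitrary), or that `‖v·α‖ ≥ c H(v)^(-C)` for all `v ≠ 0`, for some
`c > 0` and some real `C` (and then `ψ` is arbitrary). Then for almost every `t` there are infinitely
many `n ∈ ℤ^k` with `‖n_1 α_1 + .. + n_(k-1) α_(k-1) + n_k t‖ < ψ(H(n))`. -/
theorem result (m : ℕ) (α : Fin (m + 1) → ℝ) (ψ : ℕ → ℝ)
    (hψ : ∀ a b : ℕ, 2 ≤ a → a ≤ b → ψ b ≤ ψ a)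
    (h0 : ∀ n : ℕ, 2 ≤ n → 0 ≤ ψ n)
    (hdiv : ¬ Summable (fun n : ℕ => ψ n * Real.log (n : ℝ) ^ (m + 1)))
    (h : (∃ C : ℝ, ∀ᶠ n : ℕ in Filter.atTop, (n : ℝ) ^ (-C) ≤ ψ n) ∨
      (∃ c C : ℝ, 0 < c ∧ ∀ v : Fin (m + 1) → ℤ, v ≠ 0 →
        c * (∏ i : Fin (m + 1), max |(v i : ℝ)| 2) ^ (-C) ≤
          |(∑ i : Fin (m + 1), (v i : ℝ) * α i)
            - (round (∑ i : Fin (m + 1), (v i : ℝ) * α i) : ℝ)|)) :
    ∀ᵐ t : ℝ ∂MeasureTheory.volume,
      Set.Infinite {n : Fin (m + 2) → ℤ |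
        |(∑ i : Fin (m + 1), (n (Fin.castSucc i) : ℝ) * α i
            + (n (Fin.last (m + 1)) : ℝ) * t)
          - (round (∑ i : Fin (m + 1), (n (Fin.castSucc i) : ℝ) * α i
            + (n (Fin.last (m + 1)) : ℝ) * t) : ℝ)|
        < ψ (∏ i : Fin (m + 2), max (n i).natAbs 2)} :=
  Pool.Agent.Lib.MP_04276e_nt.Ins.diverge m α ψ hψ h0 hdiv h

end Pool.Agent.Results.MP_04276e_nt.FibreGallagher
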